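import Pool.Agent.Helper94.LK.Spec

/-!
Parts GAP and CROSS of `MP_e4073d_mp`.
-/

set_option autoImplicit false

open MeasureTheory Filter Topology Set
open scoped ENNReal InnerProductSpace

namespace Pool.Agent.H25.LK

section

variable {H : Type} [NormedAddCommGroup H] [InnerProductSpace ℝ H]

/-- the form bounds of `T` on a set `P` -/
def Bds (T : H →L[ℝ] H) (P : Set H) : Set ℝ := {m | ∀ f ∈ P, ⟪T f, f⟫_ℝ ≤ m * ‖f‖ ^ 2}

theorem form_le_norm (T : H →L[ℝ] H) (f : H) : |⟪T f, f⟫_ℝ| ≤ ‖T‖ * ‖f‖ ^ 2 := by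
  calc |⟪T f, f⟫_ℝ| ≤ ‖T f‖ * ‖f‖ := abs_real_inner_le_norm _ _
    _ ≤ (‖T‖ * ‖f‖) * ‖f‖ := mul_le_mul_of_nonneg_right (T.le_opNorm _) (norm_nonneg _)
    _ = ‖T‖ * ‖f‖ ^ 2 := by ring

theorem norm_mem_bds (T : H →L[ℝ] H) (P : Set H) : ‖T‖ ∈ Bds T P := by
  intro f _
  exact (le_abs_self _).trans (form_le_norm T f)

theorem bds_lower (T : H →L[ℝ] H) (P : Set H) (hP : ∃ f ∈ P, f ≠ 0) :
    ∀ m ∈ Bds T P, -‖T‖ ≤ m := by
  intro m hm
  obtain ⟨f, hf, hf0⟩ := hP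
  have h1 := hm f hf
  have h2 := (abs_le.1 (form_le_norm T f)).1
  have h3 : 0 < ‖f‖ ^ 2 := by
    have := norm_pos_iff.2 hf0
    positivity
  have h4 : (-‖T‖) * ‖f‖ ^ 2 ≤ m * ‖f‖ ^ 2 := by linarith
  exact le_of_mul_le_mul_right h4 h3

theorem bddBelow_bds (T : H →L[ℝ] H) (P : Set H) (hP : ∃ f ∈ P, f ≠ 0) : BddBelow (Bds T P) :=
  ⟨-‖T‖, fun _ hm => bds_lower T P hP _ hm⟩

theorem sInf_mem_bds (T : H →L[ℝ] H) (P : Set H) : sInf (Bds T P) ∈ Bds T P := by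
  intro f hf
  rcases eq_or_ne f 0 with rfl | hf0
  · simp
  have h3 : 0 < ‖f‖ ^ 2 := by
    have := norm_pos_iff.2 hf0
    positivity
  rw [← div_le_iff₀ h3]
  apply le_csInf ⟨_, norm_mem_bds T P⟩
  intro m hm
  rw [div_le_iff₀ h3]
  exact hm f hf

theorem exists_of_lt_sInf (T : H →L[ℝ] H) (P : Set H) (hP : ∃ f ∈ P, f ≠ 0) (m : ℝ)
    (hm : m < sInf (Bds T P)) : ∃ f ∈ P, m * ‖f‖ ^ 2 < ⟪T f, f⟫_ℝ := by
  by_contra hno
  push Not at hno
  exact absurd (csInf_le (bddBelow_bds T P hP) (show m ∈ Bds T P from hno)) (not_le.2 hm)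

/-- the rank one operator -/
noncomputable def rk (v : H) : H →L[ℝ] H := (innerSL ℝ v).smulRight v

theorem rk_apply (v f : H) : rk v f = ⟪v, f⟫_ℝ • v := by
  simp [rk, ContinuousLinearMap.smulRight_apply, innerSL_apply_apply]

theorem rk_compact (v : H) : IsCompactOperator (rk v) := by
  have h1 : IsCompactOperator (innerSL ℝ v : H →L[ℝ] ℝ) :=
    isCompactOperator_of_locallyCompactSpace_dom (innerSL ℝ v : H →L[ℝ] ℝ)
  have h2 := h1.clm_comp (ContinuousLinearMap.toSpanSingleton ℝ v)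
  have h3 : (⇑(ContinuousLinearMap.toSpanSingleton ℝ v) ∘ ⇑(innerSL ℝ v : H →L[ℝ] ℝ)) =
      ⇑(rk v) := by
    funext f
    simp [rk_apply, ContinuousLinearMap.toSpanSingleton_apply, innerSL_apply_apply]
  rw [← h3]
  exact h2

/-- deflated operator -/
noncomputable def defl (T : H →L[ℝ] H) (μ : ℝ) (v : H) : H →L[ℝ] H := T - μ • rk v

theorem defl_apply (T : H →L[ℝ] H) (μ : ℝ) (v f : H) :
    defl T μ v f = T f - μ • (⟪v, f⟫_ℝ • v) := by
  simp [defl, rk_apply]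

theorem defl_form (T : H →L[ℝ] H) (μ : ℝ) (v f : H) :
    ⟪defl T μ v f, f⟫_ℝ = ⟪T f, f⟫_ℝ - μ * ⟪v, f⟫_ℝ ^ 2 := by
  rw [defl_apply, inner_sub_left, inner_smul_left, inner_smul_left]
  simp only [conj_trivial]
  ring

theorem defl_symm (T : H →L[ℝ] H) (hsym : ∀ f h, ⟪T f, h⟫_ℝ = ⟪f, T h⟫_ℝ) (μ : ℝ) (v f h : H) :
    ⟪defl T μ v f, h⟫_ℝ = ⟪f, defl T μ v h⟫_ℝ := by
  rw [defl_apply, defl_apply, inner_sub_left, inner_sub_right, inner_smul_left, inner_smul_left,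
    inner_smul_right, inner_smul_right, hsym]
  simp only [conj_trivial]
  rw [real_inner_comm f v]
  ring

theorem defl_self (T : H →L[ℝ] H) (μ : ℝ) (v : H) (hv : ‖v‖ = 1) (hTv : T v = μ • v) :
    defl T μ v v = 0 := by
  rw [defl_apply, hTv, real_inner_self_eq_norm_sq, hv]
  simp

/-- an eigenvector of the deflated operator -/
theorem defl_eig (T : H →L[ℝ] H) (hsym : ∀ f h, ⟪T f, h⟫_ℝ = ⟪f, T h⟫_ℝ) (μ ν : ℝ) (hν : 0 < ν)
    (v : H) (hv : ‖v‖ = 1) (hTv : T v = μ • v) (f : H) (hf : defl T μ v f = ν • f) :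
    ⟪v, f⟫_ℝ = 0 ∧ T f = ν • f := by
  have h1 : ⟪defl T μ v f, v⟫_ℝ = ⟪f, defl T μ v v⟫_ℝ := defl_symm T hsym μ v f v
  rw [defl_self T μ v hv hTv, hf, inner_smul_left, inner_zero_right] at h1
  simp only [conj_trivial] at h1
  have h2 : ⟪f, v⟫_ℝ = 0 := by
    rcases mul_eq_zero.1 h1 with h | h
    · exact absurd h hν.ne'
    · exact h
  have h3 : ⟪v, f⟫_ℝ = 0 := by rw [real_inner_comm]; exact h2
  refine ⟨h3, ?_⟩
  rw [defl_apply, h3] at hf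
  simpa using hf

/-- normalised eigenvector -/
theorem normalise (T : H →L[ℝ] H) (μ : ℝ) (f : H) (hf : f ≠ 0) (hTf : T f = μ • f) :
    ∃ v : H, ‖v‖ = 1 ∧ T v = μ • v := by
  have hfn : 0 < ‖f‖ := norm_pos_iff.2 hf
  refine ⟨‖f‖⁻¹ • f, ?_, ?_⟩
  · rw [norm_smul, norm_inv, norm_norm, inv_mul_cancel₀ hfn.ne']
  · rw [map_smul, hTf, smul_comm]

end

open Pool.Agent.Helper94.LK in
/-- the top of the form on the orthogonal complement of a unit eigenvector is an eigenvalue -/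
theorem second (h : S_TOP) (H : Type) [NormedAddCommGroup H] [InnerProductSpace ℝ H]
    [CompleteSpace H] (T K C : H →L[ℝ] H) (hsym : ∀ f h, ⟪T f, h⟫_ℝ = ⟪f, T h⟫_ℝ)
    (hT : T = K + C) (hC : IsCompactOperator C) (hK : ∀ f, ⟪K f, f⟫_ℝ ≤ 1 / 2 * ‖f‖ ^ 2)
    (v : H) (μ₁ : ℝ) (hv : ‖v‖ = 1) (hTv : T v = μ₁ • v) (hμ₁ : 0 ≤ μ₁)
    (μ : ℝ) (hμ : 1 / 2 < μ)
    (hle : ∀ f, ⟪v, f⟫_ℝ = 0 → ⟪T f, f⟫_ℝ ≤ μ * ‖f‖ ^ 2)
    (happ : ∀ μ' < μ, ∃ f, ⟪v, f⟫_ℝ = 0 ∧ μ' * ‖f‖ ^ 2 < ⟪T f, f⟫_ℝ) :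
    ∃ f, f ≠ 0 ∧ ⟪v, f⟫_ℝ = 0 ∧ T f = μ • f := by
  have hcomp : IsCompactOperator (C - μ₁ • rk v) := by
    have := hC.sub ((rk_compact v).smul μ₁)
    exact this
  have hform : ∀ f, ⟪defl T μ₁ v f, f⟫_ℝ ≤ μ * ‖f‖ ^ 2 := by
    intro f
    -- decompose `f = a v + w`
    set a := ⟪v, f⟫_ℝ with ha
    set w := f - a • v with hw
    have hvw : ⟪v, w⟫_ℝ = 0 := by
      rw [hw, inner_sub_right, inner_smul_right, real_inner_self_eq_norm_sq, hv, ← ha]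
      ring
    have hfw : f = a • v + w := by rw [hw]; abel
    have hdw : defl T μ₁ v f = T w := by
      have h1 : defl T μ₁ v f = a • defl T μ₁ v v + defl T μ₁ v w := by
        conv_lhs => rw [hfw]
        rw [map_add, map_smul]
      rw [h1, defl_self T μ₁ v hv hTv, defl_apply, hvw]
      simp
    have hTw : ⟪T w, v⟫_ℝ = 0 := by
      rw [hsym, hTv, inner_smul_right, real_inner_comm, hvw, mul_zero]
    have h2 : ⟪defl T μ₁ v f, f⟫_ℝ = ⟪T w, w⟫_ℝ := by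
      rw [hdw]
      conv_lhs => rw [hfw]
      rw [inner_add_right, inner_smul_right, hTw]
      ring
    have h3 : ‖f‖ ^ 2 = a ^ 2 + ‖w‖ ^ 2 := by
      rw [← real_inner_self_eq_norm_sq, ← real_inner_self_eq_norm_sq]
      conv_lhs => rw [hfw]
      rw [inner_add_left, inner_add_right, inner_add_right, inner_smul_left, inner_smul_left,
        inner_smul_right, inner_smul_right, hvw, real_inner_comm v w, hvw,
        real_inner_self_eq_norm_sq v, hv]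
      simp only [conj_trivial]
      ring
    rw [h2]
    calc ⟪T w, w⟫_ℝ ≤ μ * ‖w‖ ^ 2 := hle w hvw
      _ ≤ μ * ‖f‖ ^ 2 := by
          apply mul_le_mul_of_nonneg_left _ (by linarith)
          rw [h3]
          nlinarith [sq_nonneg a]
  have happ' : ∀ μ' < μ, ∃ f, μ' * ‖f‖ ^ 2 < ⟪defl T μ₁ v f, f⟫_ℝ := by
    intro μ' hμ'
    obtain ⟨f, hvf, hf⟩ := happ μ' hμ'
    refine ⟨f, ?_⟩
    rw [defl_form, hvf]
    simpa using hf
  obtain ⟨f, hf0, hf⟩ := h H (defl T μ₁ v) K (C - μ₁ • rk v) (1 / 2)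
    (defl_symm T hsym μ₁ v) (by rw [defl, hT]; abel) hcomp hK μ hμ hform happ'
  exact ⟨f, hf0, defl_eig T hsym μ₁ μ (by linarith) v hv hTv f hf⟩

open Pool.Agent.Helper94.LK in
/-- the top of the form is an eigenvalue -/
theorem first (h : S_TOP) (H : Type) [NormedAddCommGroup H] [InnerProductSpace ℝ H]
    [CompleteSpace H] (T K C : H →L[ℝ] H) (hsym : ∀ f h, ⟪T f, h⟫_ℝ = ⟪f, T h⟫_ℝ)
    (hT : T = K + C) (hC : IsCompactOperator C) (hK : ∀ f, ⟪K f, f⟫_ℝ ≤ 1 / 2 * ‖f‖ ^ 2)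
    (hbig : ∃ f, 1 / 2 * ‖f‖ ^ 2 < ⟪T f, f⟫_ℝ) :
    1 / 2 < sInf (Bds T univ) ∧ ∃ f, f ≠ 0 ∧ T f = sInf (Bds T univ) • f := by
  obtain ⟨f₀, hf₀⟩ := hbig
  have hf₀0 : f₀ ≠ 0 := by
    rintro rfl
    simp at hf₀
  have hP : ∃ f ∈ (univ : Set H), f ≠ 0 := ⟨f₀, mem_univ _, hf₀0⟩
  have hμ : 1 / 2 < sInf (Bds T univ) := by
    have h1 := sInf_mem_bds T univ f₀ (mem_univ _)
    have h3 : 0 < ‖f₀‖ ^ 2 := by
      have := norm_pos_iff.2 hf₀0
      positivity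
    exact lt_of_mul_lt_mul_right (lt_of_lt_of_le hf₀ h1) h3.le
  refine ⟨hμ, ?_⟩
  exact h H T K C (1 / 2) hsym hT hC hK _ hμ (fun f => sInf_mem_bds T univ f (mem_univ _))
    (fun μ' hμ' => by
      obtain ⟨f, -, hf⟩ := exists_of_lt_sInf T univ hP μ' hμ'
      exact ⟨f, hf⟩)

open Pool.Agent.Helper94.LK in
theorem gap_thm (h : S_TOP) : S_GAP := by
  intro H _ _ _ T K C hsym hT hC hK hbig hsimple
  obtain ⟨hμ, f, hf0, hf⟩ := first h H T K C hsym hT hC hK hbig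
  set μ := sInf (Bds T univ) with hμdef
  have hle : ∀ f, ⟪T f, f⟫_ℝ ≤ μ * ‖f‖ ^ 2 := fun f => sInf_mem_bds T univ f (mem_univ _)
  obtain ⟨v, hv, hTv⟩ := normalise T μ f hf0 hf
  by_contra hno
  have happ : ∀ μ' < μ, ∃ f, ⟪v, f⟫_ℝ = 0 ∧ μ' * ‖f‖ ^ 2 < ⟪T f, f⟫_ℝ := by
    intro μ' hμ'
    by_contra hcon
    push Not at hcon
    refine hno ⟨v, μ, μ', hv, hTv, hle, hμ, hμ', fun f hfv => hcon f ?_⟩
    rw [real_inner_comm]; exact hfv
  obtain ⟨w, hw0, hvw, hTw⟩ := second h H T K C hsym hT hC hK v μ hv hTv (by linarith) μ hμ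
    (fun f _ => hle f) happ
  rcases hsimple μ hle v w hTv hTw hvw with h0 | h0
  · rw [h0] at hv
    simp at hv
  · exact hw0 h0

/-! ### the second eigenvalue -/

section

variable {H : Type} [NormedAddCommGroup H] [InnerProductSpace ℝ H]

/-- bounds of the form on a hyperplane -/
def Bd2 (T : H →L[ℝ] H) : Set ℝ := {m | ∃ g : H, ∀ f, ⟪f, g⟫_ℝ = 0 → ⟪T f, f⟫_ℝ ≤ m * ‖f‖ ^ 2}

/-- two linearly independent vectors: a nonzero combination orthogonal to `g` -/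
theorem exists_orth (f₁ f₂ : H) (hli : LinearIndependent ℝ ![f₁, f₂]) (g : H) :
    ∃ x y : ℝ, x • f₁ + y • f₂ ≠ 0 ∧ ⟪x • f₁ + y • f₂, g⟫_ℝ = 0 := by
  rw [LinearIndependent.pair_iff] at hli
  by_cases h1 : ⟪f₁, g⟫_ℝ = 0
  · refine ⟨1, 0, fun h => ?_, ?_⟩
    · have := (hli 1 0 h).1
      norm_num at this
    · simp [h1]
  · refine ⟨-⟪f₂, g⟫_ℝ, ⟪f₁, g⟫_ℝ, fun h => h1 (hli _ _ h).2, ?_⟩
    rw [inner_add_left, inner_smul_left, inner_smul_left]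
    simp only [conj_trivial]
    ring

theorem bd2_bddBelow (f₁ f₂ : H) (hli : LinearIndependent ℝ ![f₁, f₂]) (T : H →L[ℝ] H) :
    BddBelow (Bd2 T) := by
  refine ⟨-‖T‖, ?_⟩
  rintro m ⟨g, hg⟩
  obtain ⟨x, y, h0, horth⟩ := exists_orth f₁ f₂ hli g
  exact bds_lower T {f | ⟪f, g⟫_ℝ = 0} ⟨_, horth, h0⟩ m hg

theorem bd2_nonempty (T : H →L[ℝ] H) : ‖T‖ ∈ Bd2 T :=
  ⟨0, fun f _ => norm_mem_bds T univ f (mem_univ _)⟩

/-- Lipschitz estimate, one side -/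
theorem bd2_lip (f₁ f₂ : H) (hli : LinearIndependent ℝ ![f₁, f₂]) (T T' : H →L[ℝ] H) :
    sInf (Bd2 T') ≤ sInf (Bd2 T) + ‖T' - T‖ := by
  rw [← sub_le_iff_le_add]
  apply le_csInf ⟨_, bd2_nonempty T⟩
  rintro m ⟨g, hg⟩
  rw [sub_le_iff_le_add]
  apply csInf_le (bd2_bddBelow f₁ f₂ hli T')
  refine ⟨g, fun f hf => ?_⟩
  have h1 := hg f hf
  have h2 : ⟪T' f, f⟫_ℝ = ⟪T f, f⟫_ℝ + ⟪(T' - T) f, f⟫_ℝ := by
    rw [_root_.sub_apply, inner_sub_left]
    ring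
  have h3 := (le_abs_self _).trans (form_le_norm (T' - T) f)
  rw [h2]
  linarith

theorem bds_lip (f₀ : H) (hf₀ : f₀ ≠ 0) (T T' : H →L[ℝ] H) :
    sInf (Bds T' univ) ≤ sInf (Bds T univ) + ‖T' - T‖ := by
  have hP : ∃ f ∈ (univ : Set H), f ≠ 0 := ⟨f₀, mem_univ _, hf₀⟩
  apply csInf_le (bddBelow_bds T' univ hP)
  intro f _
  have h1 := sInf_mem_bds T univ f (mem_univ _)
  have h2 : ⟪T' f, f⟫_ℝ = ⟪T f, f⟫_ℝ + ⟪(T' - T) f, f⟫_ℝ := by
    rw [_root_.sub_apply, inner_sub_left]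
    ring
  have h3 := (le_abs_self _).trans (form_le_norm (T' - T) f)
  rw [h2]
  linarith

theorem cont_of_lip (F : (H →L[ℝ] H) → ℝ) (hF : ∀ T T', F T' ≤ F T + ‖T' - T‖) :
    Continuous F := by
  have : LipschitzWith 1 F := by
    apply LipschitzWith.of_dist_le_mul
    intro T T'
    rw [Real.dist_eq, dist_eq_norm, NNReal.coe_one, one_mul, abs_le]
    constructor
    · have := hF T T'
      rw [norm_sub_rev] at this
      linarith
    · have := hF T' T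
      linarith
  exact this.continuous

end

open Pool.Agent.Helper94.LK in
theorem cross_thm (h : S_TOP) : S_CROSS := by
  intro H _ _ _ a b hab A B KA KB CA CB hAc hBc hall hb ha
  obtain ⟨ν, ν', hνν', hAa, f₁, f₂, hli, hBa⟩ := ha
  have hf₁ : f₁ ≠ 0 := by
    intro h0
    rw [LinearIndependent.pair_iff] at hli
    have := (hli 1 0 (by simp [h0])).1
    norm_num at this
  have hP : ∃ f ∈ (univ : Set H), f ≠ 0 := ⟨f₁, mem_univ _, hf₁⟩
  let D : ℝ → ℝ := fun p => sInf (Bds (A p) univ) - sInf (Bd2 (B p))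
  have hcont : ContinuousOn D (Icc a b) := by
    apply ContinuousOn.sub
    · exact (cont_of_lip _ (bds_lip f₁ hf₁)).comp_continuousOn hAc
    · exact (cont_of_lip _ (bd2_lip f₁ f₂ hli)).comp_continuousOn hBc
  have hDa : D a ≤ 0 := by
    have h1 : sInf (Bds (A a) univ) ≤ ν := csInf_le (bddBelow_bds _ _ hP) (fun f _ => hAa f)
    have h2 : ν' ≤ sInf (Bd2 (B a)) := by
      apply le_csInf ⟨_, bd2_nonempty _⟩
      rintro m ⟨g, hg⟩
      obtain ⟨x, y, h0, horth⟩ := exists_orth f₁ f₂ hli g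
      have h3 := hg _ horth
      have h4 := hBa x y
      have h5 : 0 < ‖x • f₁ + y • f₂‖ ^ 2 := by
        have := norm_pos_iff.2 h0
        positivity
      exact le_of_mul_le_mul_right (h4.trans h3) h5
    simp only [D]
    linarith
  have hDb : 0 ≤ D b := by
    obtain ⟨ν₁, hg, f, hf⟩ := hb
    have h1 : sInf (Bd2 (B b)) ≤ ν₁ := csInf_le (bd2_bddBelow f₁ f₂ hli _) hg
    have h2 := sInf_mem_bds (A b) univ f (mem_univ _)
    have hf0 : f ≠ 0 := by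
      rintro rfl
      simp at hf
    have h5 : 0 < ‖f‖ ^ 2 := by
      have := norm_pos_iff.2 hf0
      positivity
    have h3 : ν₁ < sInf (Bds (A b) univ) := lt_of_mul_lt_mul_right (lt_of_lt_of_le hf h2) h5.le
    simp only [D]
    linarith
  obtain ⟨p, hp, hDp⟩ := intermediate_value_Icc hab.le hcont (show (0 : ℝ) ∈ Icc (D a) (D b) from
    ⟨hDa, hDb⟩)
  obtain ⟨hAs, hBs, hAd, hBd, hCA, hCB, hKA, hKB, hbig⟩ := hall p hp
  obtain ⟨hμ, hA⟩ := first h H (A p) (KA p) (CA p) hAs hAd hCA hKA hbig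
  have hμeq : sInf (Bd2 (B p)) = sInf (Bds (A p) univ) := by
    simp only [D] at hDp
    linarith
  refine ⟨p, hp, sInf (Bds (A p) univ), hμ, hA, ?_⟩
  rw [← hμeq] at hμ ⊢
  set μ := sInf (Bd2 (B p)) with hμdef
  set T := B p with hT
  -- the top of `B p`
  have hμμ₁ : μ ≤ sInf (Bds T univ) := by
    apply csInf_le (bd2_bddBelow f₁ f₂ hli _)
    exact ⟨0, fun f _ => sInf_mem_bds T univ f (mem_univ _)⟩
  have hbigB : ∃ f, 1 / 2 * ‖f‖ ^ 2 < ⟪T f, f⟫_ℝ := by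
    obtain ⟨f, -, hf⟩ := exists_of_lt_sInf T univ hP (1 / 2) (by linarith)
    exact ⟨f, hf⟩
  obtain ⟨hμ₁, f, hf0, hf⟩ := first h H T (KB p) (CB p) hBs hBd hCB hKB hbigB
  obtain ⟨v, hv, hTv⟩ := normalise T _ f hf0 hf
  set μ₁ := sInf (Bds T univ) with hμ₁def
  have hle₁ : ∀ f, ⟪T f, f⟫_ℝ ≤ μ₁ * ‖f‖ ^ 2 := fun f => sInf_mem_bds T univ f (mem_univ _)
  -- every form value orthogonal to `v` is at most `μ`
  have hleμ : ∀ w, ⟪v, w⟫_ℝ = 0 → ⟪T w, w⟫_ℝ ≤ μ * ‖w‖ ^ 2 := by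
    intro w hvw
    rcases eq_or_ne w 0 with rfl | hw0
    · simp
    have hwn : 0 < ‖w‖ ^ 2 := by
      have := norm_pos_iff.2 hw0
      positivity
    rw [← div_le_iff₀ hwn]
    apply le_csInf ⟨_, bd2_nonempty _⟩
    rintro m ⟨g, hg⟩
    -- a combination `x v + y w` orthogonal to `g`
    have hliw : LinearIndependent ℝ ![v, w] := by
      rw [LinearIndependent.pair_iff]
      intro s t hst
      have h1 : ⟪v, s • v + t • w⟫_ℝ = s := by
        rw [inner_add_right, inner_smul_right, inner_smul_right, real_inner_self_eq_norm_sq, hv,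
          hvw]
        ring
      have h2 : s = 0 := by
        rw [← h1, hst, inner_zero_right]
      rw [h2, zero_smul, zero_add] at hst
      exact ⟨h2, (smul_eq_zero.1 hst).resolve_right hw0⟩
    obtain ⟨x, y, h0, horth⟩ := exists_orth v w hliw g
    have h3 := hg _ horth
    have hTw : ⟪T w, v⟫_ℝ = 0 := by
      rw [hBs, hTv, inner_smul_right, real_inner_comm, hvw, mul_zero]
    have h4 : ⟪T (x • v + y • w), x • v + y • w⟫_ℝ = x ^ 2 * μ₁ + y ^ 2 * ⟪T w, w⟫_ℝ := by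
      rw [map_add, map_smul, map_smul, hTv, inner_add_left, inner_add_right, inner_add_right]
      simp only [inner_smul_left, inner_smul_right, conj_trivial]
      rw [real_inner_self_eq_norm_sq, hv, hvw, hTw]
      ring
    have h5 : ‖x • v + y • w‖ ^ 2 = x ^ 2 + y ^ 2 * ‖w‖ ^ 2 := by
      rw [← real_inner_self_eq_norm_sq, inner_add_left, inner_add_right, inner_add_right]
      simp only [inner_smul_left, inner_smul_right, conj_trivial]
      rw [real_inner_self_eq_norm_sq, real_inner_self_eq_norm_sq, hv, hvw, real_inner_comm v w, hvw]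
      ring
    have h6 : 0 < ‖x • v + y • w‖ ^ 2 := by
      have := norm_pos_iff.2 h0
      positivity
    have h7 : ⟪T w, w⟫_ℝ / ‖w‖ ^ 2 ≤ μ₁ := by
      rw [div_le_iff₀ hwn]
      exact hle₁ w
    set q := ⟪T w, w⟫_ℝ / ‖w‖ ^ 2 with hq
    have h8 : ⟪T w, w⟫_ℝ = q * ‖w‖ ^ 2 := by
      rw [hq, div_mul_cancel₀ _ hwn.ne']
    have h9 : q * ‖x • v + y • w‖ ^ 2 ≤ m * ‖x • v + y • w‖ ^ 2 := by
      refine le_trans ?_ h3
      rw [h4, h5, h8]
      nlinarith [mul_le_mul_of_nonneg_left h7 (sq_nonneg x)]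
    exact le_of_mul_le_mul_right h9 h6
  obtain ⟨w, hw0, -, hTw⟩ := second h H T (KB p) (CB p) hBs hBd hCB hKB v μ₁ hv hTv (by linarith)
    μ hμ hleμ (by
      intro μ' hμ'
      by_contra hcon
      push Not at hcon
      have : μ' ∈ Bd2 T := ⟨v, fun f hf => hcon f (by rw [real_inner_comm]; exact hf)⟩
      exact absurd (csInf_le (bd2_bddBelow f₁ f₂ hli _) this) (not_le.2 hμ'))
  exact ⟨w, hw0, hTw⟩

end Pool.Agent.H25.LK
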