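import Pool.Agent.Helper94.LK.Spec

/-!
Part TOP of `MP_e4073d_mp`: the top of the spectrum above the essential spectrum is an eigenvalue.
-/

set_option autoImplicit false

open MeasureTheory Filter Topology Set
open scoped ENNReal InnerProductSpace

namespace Pool.Agent.H25.LK

section

variable {H : Type} [NormedAddCommGroup H] [InnerProductSpace ℝ H]

/-- for a nonnegative symmetric operator -/
theorem sq_le_form (S : H →L[ℝ] H) (hsym : ∀ f h, ⟪S f, h⟫_ℝ = ⟪f, S h⟫_ℝ)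
    (hpos : ∀ f, 0 ≤ ⟪S f, f⟫_ℝ) (u : H) : ‖S u‖ ^ 2 ≤ (‖S‖ + 1) * ⟪S u, u⟫_ℝ := by
  set M := ‖S‖ + 1 with hM
  have hMpos : 0 < M := by positivity
  have h1 : 0 ≤ ⟪S (u - M⁻¹ • S u), u - M⁻¹ • S u⟫_ℝ := hpos _
  have h2 : ⟪S (S u), u⟫_ℝ = ‖S u‖ ^ 2 := by
    rw [hsym, real_inner_self_eq_norm_sq]
  have h3 : ⟪S (S u), S u⟫_ℝ ≤ M * ‖S u‖ ^ 2 := by
    calc ⟪S (S u), S u⟫_ℝ ≤ ‖S (S u)‖ * ‖S u‖ := real_inner_le_norm _ _
      _ ≤ (‖S‖ * ‖S u‖) * ‖S u‖ := by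
          apply mul_le_mul_of_nonneg_right (S.le_opNorm _) (norm_nonneg _)
      _ ≤ M * ‖S u‖ ^ 2 := by
          rw [hM]; nlinarith [norm_nonneg (S u)]
  have h4 : ⟪S (u - M⁻¹ • S u), u - M⁻¹ • S u⟫_ℝ =
      ⟪S u, u⟫_ℝ - 2 * (M⁻¹ * ‖S u‖ ^ 2) + M⁻¹ * (M⁻¹ * ⟪S (S u), S u⟫_ℝ) := by
    rw [map_sub, map_smul, inner_sub_left, inner_sub_right, inner_sub_right, inner_smul_left,
      inner_smul_right, inner_smul_left, inner_smul_right, h2, real_inner_self_eq_norm_sq]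
    simp only [conj_trivial]
    ring
  have h5 : M⁻¹ * (M⁻¹ * ⟪S (S u), S u⟫_ℝ) ≤ M⁻¹ * ‖S u‖ ^ 2 := by
    apply mul_le_mul_of_nonneg_left _ (by positivity)
    rw [inv_mul_le_iff₀ hMpos]
    exact h3
  have h6 : M⁻¹ * ‖S u‖ ^ 2 ≤ ⟪S u, u⟫_ℝ := by linarith
  rw [inv_mul_le_iff₀ hMpos] at h6
  exact h6

end

open Pool.Agent.Helper94.LK in
theorem top_thm : S_TOP := by
  intro H _ _ _ T K C c hsym hT hC hK μ hcμ hle happ
  set S : H →L[ℝ] H := μ • ContinuousLinearMap.id ℝ H - T with hS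
  have hSa : ∀ x, S x = μ • x - T x := fun x => by simp [hS]
  have hSf : ∀ x, ⟪S x, x⟫_ℝ = μ * ‖x‖ ^ 2 - ⟪T x, x⟫_ℝ := by
    intro x
    rw [hSa, inner_sub_left, inner_smul_left, real_inner_self_eq_norm_sq]
    simp
  have hSsym : ∀ x y, ⟪S x, y⟫_ℝ = ⟪x, S y⟫_ℝ := by
    intro x y
    rw [hSa, hSa, inner_sub_left, inner_sub_right, inner_smul_left, inner_smul_right, hsym]
    simp
  have hSpos : ∀ x, 0 ≤ ⟪S x, x⟫_ℝ := by
    intro x
    rw [hSf]
    linarith [hle x]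
  set B : H →L[ℝ] H := μ • ContinuousLinearMap.id ℝ H - K with hB
  have hBa : ∀ x, B x = S x + C x := by
    intro x
    rw [hSa, hT]
    simp [hB]
    abel
  have hBlow : ∀ x, (μ - c) * ‖x‖ ≤ ‖B x‖ := by
    intro x
    rcases eq_or_ne x 0 with rfl | hx
    · simp
    have hxn : 0 < ‖x‖ := norm_pos_iff.2 hx
    have h1 : (μ - c) * ‖x‖ ^ 2 ≤ ⟪B x, x⟫_ℝ := by
      have : ⟪B x, x⟫_ℝ = μ * ‖x‖ ^ 2 - ⟪K x, x⟫_ℝ := by
        simp [hB, inner_sub_left, inner_smul_left]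
      rw [this]
      linarith [hK x]
    have h2 : ⟪B x, x⟫_ℝ ≤ ‖B x‖ * ‖x‖ := real_inner_le_norm _ _
    have h3 : ((μ - c) * ‖x‖) * ‖x‖ ≤ ‖B x‖ * ‖x‖ := by
      calc ((μ - c) * ‖x‖) * ‖x‖ = (μ - c) * ‖x‖ ^ 2 := by ring
        _ ≤ _ := h1.trans h2
    exact le_of_mul_le_mul_right h3 hxn
  -- the maximising sequence
  have hseq : ∀ n : ℕ, ∃ u : H, ‖u‖ = 1 ∧ μ - 1 / ((n : ℝ) + 1) < ⟪T u, u⟫_ℝ := by
    intro n
    have hpos : (0 : ℝ) < 1 / ((n : ℝ) + 1) := by positivity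
    obtain ⟨f, hf⟩ := happ (μ - 1 / ((n : ℝ) + 1)) (by linarith)
    have hf0 : f ≠ 0 := by
      rintro rfl
      simp at hf
    have hfn : 0 < ‖f‖ := norm_pos_iff.2 hf0
    refine ⟨‖f‖⁻¹ • f, ?_, ?_⟩
    · rw [norm_smul, norm_inv, norm_norm, inv_mul_cancel₀ hfn.ne']
    · rw [map_smul, inner_smul_left, inner_smul_right]
      simp only [conj_trivial]
      rw [← mul_assoc, ← mul_inv, ← sq, inv_mul_eq_div, lt_div_iff₀ (by positivity)]
      exact hf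
  choose u hu1 hu2 using hseq
  have hSu : Tendsto (fun n => S (u n)) atTop (𝓝 0) := by
    rw [tendsto_zero_iff_norm_tendsto_zero]
    have hsq : Tendsto (fun n => ‖S (u n)‖ ^ 2) atTop (𝓝 0) := by
      refine squeeze_zero (fun n => by positivity)
        (g := fun n : ℕ => (‖S‖ + 1) * (1 / ((n : ℝ) + 1))) (fun n => ?_) ?_
      · refine (sq_le_form S hSsym hSpos (u n)).trans ?_
        apply mul_le_mul_of_nonneg_left _ (by positivity)
        rw [hSf, hu1]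
        linarith [hu2 n]
      · have := (tendsto_one_div_add_atTop_nhds_zero_nat (𝕜 := ℝ)).const_mul (‖S‖ + 1)
        simpa using this
    have := (Real.continuous_sqrt.tendsto 0).comp hsq
    simpa [Function.comp_def, Real.sqrt_sq (norm_nonneg _)] using this
  have hcomp := hC.isCompact_closure_image_closedBall (f := (C : H →ₛₗ[RingHom.id ℝ] H)) 1
  have hmem : ∀ n, C (u n) ∈ closure (C '' Metric.closedBall (0 : H) 1) := by
    intro n
    apply subset_closure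
    exact ⟨u n, by simp [hu1 n], rfl⟩
  obtain ⟨y, -, φ, hφ, hy⟩ := hcomp.tendsto_subseq hmem
  have hBy : Tendsto (fun n => B (u (φ n))) atTop (𝓝 y) := by
    have h1 : Tendsto (fun n => S (u (φ n)) + C (u (φ n))) atTop (𝓝 (0 + y)) :=
      (hSu.comp hφ.tendsto_atTop).add hy
    rw [zero_add] at h1
    refine h1.congr (fun n => ?_)
    rw [hBa]
  have hcauchy : CauchySeq (fun n => u (φ n)) := by
    have hcB := hBy.cauchySeq
    rw [Metric.cauchySeq_iff] at hcB ⊢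
    intro ε hε
    obtain ⟨N, hN⟩ := hcB ((μ - c) * ε) (by
      have : 0 < μ - c := by linarith
      positivity)
    refine ⟨N, fun m hm n hn => ?_⟩
    have h1 := hN m hm n hn
    rw [dist_eq_norm] at h1 ⊢
    rw [← map_sub] at h1
    have h2 := hBlow (u (φ m) - u (φ n))
    have h3 : (μ - c) * ‖u (φ m) - u (φ n)‖ < (μ - c) * ε := lt_of_le_of_lt h2 h1
    exact lt_of_mul_lt_mul_left h3 (by linarith)
  obtain ⟨v, hv⟩ := cauchySeq_tendsto_of_complete hcauchy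
  refine ⟨v, ?_, ?_⟩
  · have hn : Tendsto (fun n => ‖u (φ n)‖) atTop (𝓝 ‖v‖) := hv.norm
    have hn' : Tendsto (fun n => ‖u (φ n)‖) atTop (𝓝 1) := by
      simp only [hu1]
      exact tendsto_const_nhds
    have := tendsto_nhds_unique hn hn'
    intro h0
    rw [h0] at this
    simp at this
  · have h1 : Tendsto (fun n => S (u (φ n))) atTop (𝓝 (S v)) := (S.continuous.tendsto v).comp hv
    have h2 : Tendsto (fun n => S (u (φ n))) atTop (𝓝 0) := hSu.comp hφ.tendsto_atTop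
    have h3 := tendsto_nhds_unique h1 h2
    rw [hSa, sub_eq_zero] at h3
    exact h3.symm

end Pool.Agent.H25.LK
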